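import Mathlib
import Pool.Agent.H.MP_10f401_gt.B

set_option autoImplicit false

namespace Pool.Agent.Results.MP_10f401_gt.CH

open Set Filter Topology Cardinal Pool.Agent.H.MP_5382b1_gt Pool.Agent.H.MP_10f401_gt

/-- The least size of a family of meager sets covering the Cantor space. -/
noncomputable def covM : Cardinal.{0} :=
  sInf {c | ∃ F : Set (Set (ℕ → ZMod 2)), (∀ M ∈ F, IsMeagre M) ∧ ⋃₀ F = Set.univ ∧ #F = c}

def Luzin (κ : Cardinal.{0}) (X : Set (ℕ → ZMod 2)) : Prop :=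
  κ ≤ #X ∧ ∀ M : Set (ℕ → ZMod 2), IsMeagre M → #(X ∩ M : Set (ℕ → ZMod 2)) < κ

def Menger (Z : Type) [TopologicalSpace Z] : Prop :=
  ∀ U : ℕ → Set (Set Z), (∀ n, (∀ u ∈ U n, IsOpen u) ∧ ⋃₀ U n = Set.univ) →
    ∃ F : ℕ → Set (Set Z), (∀ n, F n ⊆ U n ∧ (F n).Finite) ∧ ⋃₀ (⋃ n, F n) = Set.univ

def Rothberger (Z : Type) [TopologicalSpace Z] : Prop :=
  ∀ U : ℕ → Set (Set Z), (∀ n, (∀ u ∈ U n, IsOpen u) ∧ ⋃₀ U n = Set.univ) →
    ∃ u : ℕ → Set Z, (∀ n, u n ∈ U n) ∧ ⋃ n, u n = Set.univ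

theorem result
    (h : continuum.{0} = aleph 1 ∨ (covM = continuum ∧ Cardinal.IsRegular continuum.{0}))
    (X : Set (ℕ → ZMod 2)) (hX : Luzin covM X) :
    ∃ Y : Set (ℕ → ZMod 2), (∀ k : ℕ, 1 ≤ k → Rothberger (Fin k → Y) ∧ Menger (Fin k → Y)) ∧
      ¬ Menger (X × Y) := by
  classical
  obtain ⟨h1, hr⟩ : covM = continuum ∧ Cardinal.IsRegular continuum.{0} := by
    refine h.elim (fun h => ⟨le_antisymm ?_ ?_, h ▸ isRegular_aleph_one⟩) id
    all_goals
      have k : #(range fun x : V => ({x} : Set V)) ∈ {c | ∃ F : Set (Set (ℕ → ZMod 2)),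
          (∀ M ∈ F, IsMeagre M) ∧ ⋃₀ F = Set.univ ∧ #F = c} := ⟨_, by
        rintro _ ⟨x, rfl⟩
        exact IsNowhereDense.isMeagre (isClosed_singleton.isNowhereDense_iff.2 (int_single x)),
        by simp [iUnion_of_singleton], rfl⟩
    · exact (csInf_le' k).trans (mk_range_le.trans (by simp))
    · obtain ⟨F, k1, k2, k3⟩ := csInf_mem ⟨_, k⟩
      rw [h, covM, ← k3, ← succ_aleph0, Order.succ_le_iff]
      refine not_le.1 fun k4 => not_isMeagre_of_isOpen (X := V) isOpen_univ univ_nonempty ?_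
      rw [← k2, sUnion_eq_biUnion]
      exact isMeagre_biUnion (le_aleph0_iff_set_countable.1 k4) k1
  have hc : Cov := fun J N hJ hN => by
    by_contra h2
    push Not at h2
    refine (mk_range_le.trans_lt hJ).not_ge (h1.ge.trans (csInf_le' ⟨range N, ?_, ?_, rfl⟩))
    · rintro _ ⟨j, rfl⟩
      exact hN j
    · simpa [eq_univ_iff_forall] using h2
  rw [h1] at hX
  obtain ⟨Y, ⟨y, hy⟩, h2, h3, h4⟩ := main hc hr X hX.1 hX.2
  refine ⟨Y, fun k _ => ?_, fun hM => ?_⟩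
  · have h5 : Rothberger (Fin k → Y) := by
      intro U hU
      let e : {z : Fin k → V | ∀ i, z i ∈ Y} → Fin k → Y := fun z i => ⟨z.1 i, z.2 i⟩
      have he : Continuous e := continuous_pi fun i =>
        ((continuous_apply i).comp continuous_subtype_val).subtype_mk _
      obtain ⟨u, k1, k2⟩ := h2 k (fun n => {w | IsOpen w ∧ ∃ u ∈ U n, Subtype.val ⁻¹' w = e ⁻¹' u})
        fun n => by
          have k : ∀ z : {z : Fin k → V | ∀ i, z i ∈ Y}, z.1 ∈
              ⋃₀ {w | IsOpen w ∧ ∃ u ∈ U n, Subtype.val ⁻¹' w = e ⁻¹' u} := fun z => by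
            obtain ⟨u, hu, hz⟩ := (hU n).2.ge (mem_univ (e z))
            obtain ⟨w, k1, k2⟩ := isOpen_induced_iff.1 (((hU n).1 u hu).preimage he)
            exact ⟨w, ⟨k1, u, hu, k2⟩, k2.ge hz⟩
          exact ⟨(k ⟨fun _ => y, fun _ => hy⟩).imp fun w hw => hw.1, fun w hw => hw.1,
            fun z hz => k ⟨z, hz⟩⟩
      choose v k3 k4 using fun n => (k1 n).2
      refine ⟨v, k3, eq_univ_of_forall fun z => ?_⟩
      obtain ⟨n, hn⟩ := mem_iUnion.1 (k2 (a := fun i => z i) fun i => (z i).2)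
      exact mem_iUnion.2 ⟨n, (Set.ext_iff.1 (k4 n) ⟨fun i => z i, fun i => (z i).2⟩).1 hn⟩
    refine ⟨h5, fun U hU => ?_⟩
    obtain ⟨u, k1, k2⟩ := h5 U hU
    exact ⟨fun n => {u n}, fun n => ⟨singleton_subset_iff.2 (k1 n), finite_singleton _⟩, by
      rwa [iUnion_singleton_eq_range, sUnion_range]⟩
  · let W : ℕ → ℕ → Set (X × Y) := fun n m =>
      {p | n < ((Finset.range m).filter fun j => p.1.1 j = p.2.1 j).card}
    obtain ⟨F, k1, k2⟩ := hM (fun n => range (W n)) fun n => ⟨by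
      rintro _ ⟨m, rfl⟩
      have k : Continuous fun z : V => ((Finset.range m).filter fun j => z j = 0).card :=
        Pool.Agent.H.MP_919a9a_lc.cont_dep _ m fun z w h => congrArg _
          (Finset.filter_congr fun j hj => by rw [h j (Finset.mem_range.1 hj)])
      have := (isOpen_discrete (Ioi n)).preimage (k.comp (f := fun p : X × Y => p.1.1 - p.2.1)
        (by fun_prop))
      simpa [W, preimage, sub_eq_zero] using this, eq_univ_of_forall fun p => by
      obtain ⟨S, k1, k2⟩ := (h3 _ p.1.2 _ p.2.2).exists_subset_card_eq (n + 1)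
      refine ⟨_, ⟨S.sup id + 1, rfl⟩, (Nat.lt_succ_self n).trans_le (k2.ge.trans (Finset.card_le_card
        fun j hj => Finset.mem_filter.2 ⟨Finset.mem_range.2 (Nat.lt_succ_of_le ?_), k1 hj⟩))⟩
      exact Finset.le_sup (f := id) hj⟩
    have k3 : ∀ n, ∃ m, ∀ w ∈ F n, w ⊆ W n m := fun n => by
      choose! g hg using (k1 n).1
      obtain ⟨m, hm⟩ := ((k1 n).2.image g).bddAbove
      refine ⟨m, fun w hw p hp => ?_⟩
      rw [← hg hw] at hp
      exact lt_of_lt_of_le hp (Finset.card_le_card (Finset.filter_subset_filter _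
        (Finset.range_mono (hm ⟨w, hw, rfl⟩))))
    choose f hf using k3
    obtain ⟨a, ha, b, hb, k4⟩ := h4 f
    obtain ⟨w, hw, k5⟩ := k2.ge (mem_univ (⟨a, ha⟩, ⟨b, hb⟩))
    obtain ⟨n, hn⟩ := mem_iUnion.1 hw
    refine (show n < _ from hf n w hn k5).not_ge ((Finset.card_le_card
      (t := (Finset.range n).image (bb f)) fun j hj => ?_).trans (Finset.card_image_le.trans (by simp)))
    obtain ⟨k6, k7⟩ := Finset.mem_filter.1 hj
    obtain ⟨i, rfl⟩ := k4 j k7
    exact Finset.mem_image_of_mem _ (Finset.mem_range.2 ((bb_mono f).lt_iff_lt.1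
      ((Finset.mem_range.1 k6).trans_le (le_bb f n))))

end Pool.Agent.Results.MP_10f401_gt.CH
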